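import Mathlib

namespace Pool.Agent.Results.MP_e6ac48_pr.NoContinuityAtZero

open Set MeasureTheory Filter Topology
open scoped Interval

/-- The integrated parabolic Anderson equation on the integers, for one realisation of the
potential: `u` is continuous in time on `[0, ∞)`, bounded on `ℤ × [0, T]` for every `T`, starts
from the unit mass at `0`, and satisfies
`u(x,t) = u(x,0) + ∫_0^t (κ (u(x+1,s) + u(x-1,s) - 2 u(x,s)) + γ ξ(x,s) u(x,s)) ds`. -/
structure IsPAM (κ γ : ℝ) (ξ : ℤ → ℝ → ℝ) (u : ℤ → ℝ → ℝ) : Prop where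
  cont : ∀ x, ContinuousOn (u x) (Set.Ici 0)
  bdd : ∀ T : ℝ, ∃ C : ℝ, ∀ x, ∀ t ∈ Set.Icc 0 T, |u x t| ≤ C
  eqn : ∀ x, ∀ t, 0 ≤ t → u x t = (if x = 0 then 1 else 0) +
    ∫ s in (0 : ℝ)..t, (κ * (u (x + 1) s + u (x - 1) s - 2 * u x s) + γ * ξ x s * u x s)

/-- the right-hand side -/
noncomputable def rhs (κ γ : ℝ) (ξ : ℤ → ℝ → ℝ) (u : ℤ → ℝ → ℝ) (x : ℤ) (s : ℝ) : ℝ :=
  κ * (u (x + 1) s + u (x - 1) s - 2 * u x s) + γ * ξ x s * u x s

theorem mul_integrable {ξ y : ℝ → ℝ} (hm : Measurable ξ) (h01 : ∀ t, 0 ≤ ξ t ∧ ξ t ≤ 1) {a b : ℝ}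
    (hy : IntervalIntegrable y volume a b) : IntervalIntegrable (fun s => ξ s * y s) volume a b := by
  rw [intervalIntegrable_iff] at hy ⊢
  apply hy.bdd_mul (c := 1) hm.aestronglyMeasurable
  apply Filter.Eventually.of_forall
  intro t
  rw [Real.norm_eq_abs, abs_of_nonneg (h01 t).1]
  exact (h01 t).2

theorem rhs_integrable (κ γ : ℝ) {ξ : ℤ → ℝ → ℝ} (hm : ∀ x, Measurable (ξ x))
    (h01 : ∀ x t, 0 ≤ ξ x t ∧ ξ x t ≤ 1) {z : ℤ → ℝ → ℝ} {s t : ℝ}
    (hz : ∀ x, IntervalIntegrable (z x) volume s t) (x : ℤ) :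
    IntervalIntegrable (rhs κ γ ξ z x) volume s t := by
  unfold rhs
  have h1 : IntervalIntegrable (fun r => γ * (ξ x r * z x r)) volume s t :=
    (mul_integrable (hm x) (h01 x) (hz x)).const_mul γ
  have h2 : IntervalIntegrable (fun r => κ * (z (x + 1) r + z (x - 1) r - 2 * z x r)) volume s t :=
    (((hz (x + 1)).add (hz (x - 1))).sub ((hz x).const_mul 2)).const_mul κ
  have h3 := h2.add h1
  apply h3.congr
  intro r _
  simp only
  ring

/-- Comparison principle. -/
theorem comparison {κ γ : ℝ} (hκ : 0 ≤ κ) (hγ : 0 ≤ γ) {ξ : ℤ → ℝ → ℝ}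
    (hm : ∀ x, Measurable (ξ x)) (h01 : ∀ x t, 0 ≤ ξ x t ∧ ξ x t ≤ 1)
    {z : ℤ → ℝ → ℝ} {a b : ℝ} (hc : ∀ x, ContinuousOn (z x) (Icc a b))
    (hB : ∃ B, ∀ x, ∀ t ∈ Icc a b, |z x t| ≤ B) (h0 : ∀ x, 0 ≤ z x a)
    (hinc : ∀ x, ∀ s t, a ≤ s → s ≤ t → t ≤ b → ∫ r in s..t, rhs κ γ ξ z x r ≤ z x t - z x s) :
    ∀ x, ∀ t ∈ Icc a b, 0 ≤ z x t := by
  obtain ⟨B, hB⟩ := hB
  set C := 2 * κ + γ with hC
  have hC0 : 0 ≤ C := by positivity
  have hzi : ∀ s t, a ≤ s → s ≤ t → t ≤ b → ∀ x, IntervalIntegrable (z x) volume s t := by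
    intro s t hs hst ht x
    apply ContinuousOn.intervalIntegrable
    apply (hc x).mono
    rw [uIcc_of_le hst]
    exact Icc_subset_Icc hs ht
  have key : ∀ k : ℕ, ∀ x, ∀ t ∈ Icc a b, -(B * (C * (t - a)) ^ k / (k.factorial : ℝ)) ≤ z x t := by
    intro k
    induction k with
    | zero =>
      intro x t ht
      have := hB x t ht
      simp only [pow_zero, mul_one, Nat.factorial_zero, Nat.cast_one, div_one]
      exact (abs_le.mp this).1
    | succ k ih =>
      intro x t ht
      have B0 : 0 ≤ B := (abs_nonneg _).trans (hB x t ht)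
      have hta : 0 ≤ t - a := by linarith [ht.1]
      by_cases hpos : 0 ≤ z x t
      · have : 0 ≤ B * (C * (t - a)) ^ (k + 1) / ((k + 1).factorial : ℝ) := by positivity
        linarith
      · push Not at hpos
        -- last time where z is nonnegative
        set S := {r : ℝ | r ∈ Icc a t ∧ 0 ≤ z x r} with hS
        have hcl : IsClosed S := by
          have hct : ContinuousOn (z x) (Icc a t) := (hc x).mono (Icc_subset_Icc le_rfl ht.2)
          exact hct.preimage_isClosed_of_isClosed isClosed_Icc isClosed_Ici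
        have hne : S.Nonempty := ⟨a, ⟨le_rfl, ht.1⟩, h0 x⟩
        have hbdd : BddAbove S := ⟨t, fun r hr => hr.1.2⟩
        have hsS : sSup S ∈ S := hcl.csSup_mem hne hbdd
        set s := sSup S with hs
        have hst : s ≤ t := hsS.1.2
        have has : a ≤ s := hsS.1.1
        have hneg : ∀ r ∈ Ioc s t, z x r < 0 := by
          intro r hr
          by_contra hcon
          push Not at hcon
          have : r ∈ S := ⟨⟨has.trans hr.1.le, hr.2⟩, hcon⟩
          have := le_csSup hbdd this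
          linarith [hr.1]
        have h1 := hinc x s t has hst ht.2
        have hint : IntervalIntegrable (fun r => -(C * (B * (C * (r - a)) ^ k / (k.factorial : ℝ))))
            volume s t := by
          apply Continuous.intervalIntegrable
          fun_prop
        have h2 : ∫ r in s..t, -(C * (B * (C * (r - a)) ^ k / (k.factorial : ℝ)))
            ≤ ∫ r in s..t, rhs κ γ ξ z x r := by
          apply intervalIntegral.integral_mono_on_of_le_Ioo hst hint
            (rhs_integrable κ γ hm h01 (hzi s t has hst ht.2) x)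
          intro r hr
          have hrt : r ∈ Icc a b := ⟨has.trans hr.1.le, hr.2.le.trans ht.2⟩
          have i1 := ih (x + 1) r hrt
          have i2 := ih (x - 1) r hrt
          have i3 := ih x r hrt
          have i4 := hneg r ⟨hr.1, hr.2.le⟩
          have i5 := h01 x r
          set β := B * (C * (r - a)) ^ k / (k.factorial : ℝ) with hβ
          have hβ0 : 0 ≤ β := by
            have : 0 ≤ r - a := by linarith [hrt.1]
            positivity
          unfold rhs
          have j1 : κ * (z (x + 1) r + z (x - 1) r - 2 * z x r) ≥ -(2 * κ * β) := by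
            nlinarith
          have j2 : γ * ξ x r * z x r ≥ -(γ * β) := by
            have : ξ x r * z x r ≥ -β := by nlinarith
            nlinarith
          rw [hC]
          linarith
        have h3 : ∫ r in s..t, -(C * (B * (C * (r - a)) ^ k / (k.factorial : ℝ)))
            = -(B * (C * (t - a)) ^ (k + 1) / ((k + 1).factorial : ℝ))
              + (B * (C * (s - a)) ^ (k + 1) / ((k + 1).factorial : ℝ)) := by
          have e1 : ∀ r : ℝ, -(C * (B * (C * (r - a)) ^ k / (k.factorial : ℝ)))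
              = (-(B * C ^ (k + 1) / (k.factorial : ℝ))) * (r - a) ^ k := by
            intro r; rw [mul_pow]; ring
          simp_rw [e1]
          rw [intervalIntegral.integral_const_mul,
            intervalIntegral.integral_comp_sub_right (fun r => r ^ k) a, integral_pow,
            Nat.factorial_succ]
          push_cast
          rw [mul_pow, mul_pow]
          have : (k.factorial : ℝ) ≠ 0 := by positivity
          have : ((k : ℝ) + 1) ≠ 0 := by positivity
          field_simp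
          ring
        have h4 : 0 ≤ B * (C * (s - a)) ^ (k + 1) / ((k + 1).factorial : ℝ) := by
          have : 0 ≤ s - a := by linarith
          positivity
        have h5 : 0 ≤ z x s := hsS.2
        linarith
  intro x t ht
  have hlim : Tendsto (fun k : ℕ => -(B * (C * (t - a)) ^ k / (k.factorial : ℝ))) atTop (𝓝 0) := by
    have := (FloorSemiring.tendsto_pow_div_factorial_atTop (C * (t - a))).const_mul (-B)
    simp only [mul_zero] at this
    refine this.congr (fun k => ?_)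
    ring
  exact le_of_tendsto' hlim (fun k => key k x t ht)


theorem IsPAM.interval {κ γ : ℝ} {ξ : ℤ → ℝ → ℝ} {u : ℤ → ℝ → ℝ} (hu : IsPAM κ γ ξ u)
    {s t : ℝ} (hs : 0 ≤ s) (hst : s ≤ t) (x : ℤ) : IntervalIntegrable (u x) volume s t := by
  apply ContinuousOn.intervalIntegrable
  apply (hu.cont x).mono
  rw [uIcc_of_le hst]
  intro r hr
  exact hs.trans hr.1

theorem IsPAM.incr {κ γ : ℝ} {ξ : ℤ → ℝ → ℝ} (hm : ∀ x, Measurable (ξ x))
    (h01 : ∀ x t, 0 ≤ ξ x t ∧ ξ x t ≤ 1) {u : ℤ → ℝ → ℝ} (hu : IsPAM κ γ ξ u)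
    {s t : ℝ} (hs : 0 ≤ s) (hst : s ≤ t) (x : ℤ) :
    u x t - u x s = ∫ r in s..t, rhs κ γ ξ u x r := by
  rw [hu.eqn x t (hs.trans hst), hu.eqn x s hs]
  have h1 : IntervalIntegrable (rhs κ γ ξ u x) volume 0 s :=
    rhs_integrable κ γ hm h01 (fun x => hu.interval le_rfl hs x) x
  have h2 : IntervalIntegrable (rhs κ γ ξ u x) volume s t :=
    rhs_integrable κ γ hm h01 (fun x => hu.interval hs hst x) x
  have := intervalIntegral.integral_add_adjacent_intervals h1 h2
  unfold rhs at this ⊢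
  linarith

theorem IsPAM.nonneg {κ γ : ℝ} (hκ : 0 ≤ κ) (hγ : 0 ≤ γ) {ξ : ℤ → ℝ → ℝ}
    (hm : ∀ x, Measurable (ξ x)) (h01 : ∀ x t, 0 ≤ ξ x t ∧ ξ x t ≤ 1) {u : ℤ → ℝ → ℝ}
    (hu : IsPAM κ γ ξ u) (x : ℤ) (t : ℝ) (ht : 0 ≤ t) : 0 ≤ u x t := by
  refine comparison hκ hγ hm h01 (a := 0) (b := t) (fun x => (hu.cont x).mono ?_)
    (hu.bdd t) ?_ ?_ x t ⟨ht, le_rfl⟩
  · intro r hr; exact hr.1
  · intro x
    rw [hu.eqn x 0 le_rfl]
    simp only [intervalIntegral.integral_same, add_zero]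
    split_ifs <;> norm_num
  · intro x s t hs hst _
    exact (hu.incr hm h01 hs hst x).ge

theorem IsPAM.upper {κ γ : ℝ} (hκ : 0 ≤ κ) (hγ : 0 ≤ γ) {ξ : ℤ → ℝ → ℝ}
    (hm : ∀ x, Measurable (ξ x)) (h01 : ∀ x t, 0 ≤ ξ x t ∧ ξ x t ≤ 1) {u : ℤ → ℝ → ℝ}
    (hu : IsPAM κ γ ξ u) (x : ℤ) (t : ℝ) (ht : 0 ≤ t) : u x t ≤ Real.exp (γ * t) := by
  have hexp : Continuous (fun t : ℝ => Real.exp (γ * t)) := by fun_prop
  have main := comparison hκ hγ hm h01 (z := fun x t => Real.exp (γ * t) - u x t)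
    (a := 0) (b := t) (fun x => hexp.continuousOn.sub ((hu.cont x).mono (fun r hr => hr.1)))
    ?_ ?_ ?_ x t ⟨ht, le_rfl⟩
  · have main' : 0 ≤ Real.exp (γ * t) - u x t := main
    linarith
  · obtain ⟨C, hC⟩ := hu.bdd t
    refine ⟨Real.exp (γ * t) + C, fun x r hr => ?_⟩
    have h1 := hC x r hr
    have h2 : Real.exp (γ * r) ≤ Real.exp (γ * t) := by
      apply Real.exp_le_exp.mpr
      exact mul_le_mul_of_nonneg_left hr.2 hγ
    have h3 := Real.exp_pos (γ * r)
    calc |Real.exp (γ * r) - u x r| ≤ |Real.exp (γ * r)| + |u x r| := abs_sub _ _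
      _ ≤ _ := by rw [abs_of_pos h3]; linarith
  · intro x
    have e := hu.eqn x 0 le_rfl
    rw [intervalIntegral.integral_same, add_zero] at e
    show 0 ≤ Real.exp (γ * 0) - u x 0
    rw [e, mul_zero, Real.exp_zero]
    split_ifs <;> norm_num
  · intro x s t hs hst _
    have h1 := hu.incr hm h01 hs hst x
    have h2 : ∫ r in s..t, γ * Real.exp (γ * r) = Real.exp (γ * t) - Real.exp (γ * s) := by
      apply intervalIntegral.integral_eq_sub_of_hasDerivAt
      · intro r _
        have := ((hasDerivAt_id r).const_mul γ).exp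
        simp only [id, mul_one] at this
        rw [mul_comm] at this
        exact this
      · apply Continuous.intervalIntegrable; fun_prop
    have i1 : ∀ x, IntervalIntegrable (fun r => Real.exp (γ * r) - u x r) volume s t := fun x =>
      (hexp.intervalIntegrable s t).sub (hu.interval hs hst x)
    have i2 := rhs_integrable κ γ hm h01 i1 x
    have i3 := rhs_integrable κ γ hm h01 (fun x => hu.interval hs hst x) x
    have i4 : IntervalIntegrable (fun r => γ * Real.exp (γ * r)) volume s t := by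
      apply Continuous.intervalIntegrable; fun_prop
    have h3 : ∫ r in s..t, rhs κ γ ξ (fun x t => Real.exp (γ * t) - u x t) x r
        ≤ ∫ r in s..t, (γ * Real.exp (γ * r) - rhs κ γ ξ u x r) := by
      apply intervalIntegral.integral_mono_on hst i2 (i4.sub i3)
      intro r _
      unfold rhs
      have := h01 x r
      have e := Real.exp_pos (γ * r)
      have : γ * ξ x r * Real.exp (γ * r) ≤ γ * Real.exp (γ * r) := by
        apply mul_le_mul_of_nonneg_right _ e.le
        nlinarith [this.2]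
      nlinarith
    rw [intervalIntegral.integral_sub i4 i3, h2, ← h1] at h3
    linarith

/-- barriers of the form `exp (θ (t - a)) (p x + (t - a) q x)` -/
theorem barrier {κ γ : ℝ} (hκ : 0 ≤ κ) (hγ : 0 ≤ γ) {ξ : ℤ → ℝ → ℝ}
    (hm : ∀ x, Measurable (ξ x)) (h01 : ∀ x t, 0 ≤ ξ x t ∧ ξ x t ≤ 1) {u : ℤ → ℝ → ℝ}
    (hu : IsPAM κ γ ξ u) {a b : ℝ} (ha : 0 ≤ a) (θ : ℝ) (p q : ℤ → ℝ)
    (hp : ∃ B, ∀ x, |p x| ≤ B) (hq : ∃ B, ∀ x, |q x| ≤ B) (h0 : ∀ x, p x ≤ u x a)
    (hsub : ∀ x, ∀ t ∈ Icc a b, θ * (Real.exp (θ * (t - a)) * (p x + (t - a) * q x))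
      + Real.exp (θ * (t - a)) * q x
      ≤ rhs κ γ ξ (fun x t => Real.exp (θ * (t - a)) * (p x + (t - a) * q x)) x t) :
    ∀ x, ∀ t ∈ Icc a b, Real.exp (θ * (t - a)) * (p x + (t - a) * q x) ≤ u x t := by
  set β : ℤ → ℝ → ℝ := fun x t => Real.exp (θ * (t - a)) * (p x + (t - a) * q x) with hβ
  have hβc : ∀ x, Continuous (β x) := by intro x; simp only [hβ]; fun_prop
  have main := comparison hκ hγ hm h01 (z := fun x t => u x t - β x t)
    (a := a) (b := b) (fun x => ((hu.cont x).mono (fun r hr => ha.trans hr.1)).sub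
      (hβc x).continuousOn) ?_ ?_ ?_
  · intro x t ht
    have := main x t ht
    simp only [hβ] at this
    linarith
  · obtain ⟨C, hC⟩ := hu.bdd b
    obtain ⟨Bp, hBp⟩ := hp
    obtain ⟨Bq, hBq⟩ := hq
    refine ⟨C + Real.exp (|θ| * (b - a)) * (Bp + (b - a) * Bq), fun x r hr => ?_⟩
    have h1 := hC x r ⟨ha.trans hr.1, hr.2⟩
    have hra : 0 ≤ r - a := by linarith [hr.1]
    have h2 : Real.exp (θ * (r - a)) ≤ Real.exp (|θ| * (b - a)) := by
      apply Real.exp_le_exp.mpr
      calc θ * (r - a) ≤ |θ| * (r - a) := mul_le_mul_of_nonneg_right (le_abs_self θ) hra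
        _ ≤ _ := mul_le_mul_of_nonneg_left (by linarith [hr.2]) (abs_nonneg θ)
    have Bq0 : 0 ≤ Bq := (abs_nonneg _).trans (hBq x)
    have h3 : |p x + (r - a) * q x| ≤ Bp + (b - a) * Bq := by
      calc |p x + (r - a) * q x| ≤ |p x| + |(r - a) * q x| := abs_add_le _ _
        _ ≤ Bp + (b - a) * Bq := by
          rw [abs_mul, abs_of_nonneg hra]
          have := hBp x
          have := mul_le_mul (show r - a ≤ b - a by linarith [hr.2]) (hBq x) (abs_nonneg _)
            (by linarith [hr.2])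
          linarith
    calc |u x r - β x r| ≤ |u x r| + |β x r| := abs_sub _ _
      _ ≤ _ := by
        have : |β x r| ≤ Real.exp (|θ| * (b - a)) * (Bp + (b - a) * Bq) := by
          simp only [hβ]
          rw [abs_mul, abs_of_pos (Real.exp_pos _)]
          exact mul_le_mul h2 h3 (abs_nonneg _) (Real.exp_pos _).le
        linarith
  · intro x
    have := h0 x
    simp [hβ]
    linarith
  · intro x s t hs hst htb
    have hs0 : 0 ≤ s := ha.trans hs
    have h1 := hu.incr hm h01 hs0 hst x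
    have hd : ∀ r, HasDerivAt (β x) (θ * (Real.exp (θ * (r - a)) * (p x + (r - a) * q x))
        + Real.exp (θ * (r - a)) * q x) r := by
      intro r
      have d1 : HasDerivAt (fun t => Real.exp (θ * (t - a))) (Real.exp (θ * (r - a)) * θ) r := by
        have := (((hasDerivAt_id r).sub_const a).const_mul θ).exp
        simpa using this
      have d2 : HasDerivAt (fun t => p x + (t - a) * q x) (q x) r := by
        have := (((hasDerivAt_id r).sub_const a).mul_const (q x)).const_add (p x)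
        simpa using this
      have := d1.mul d2
      have e : θ * (Real.exp (θ * (r - a)) * (p x + (r - a) * q x)) + Real.exp (θ * (r - a)) * q x
          = Real.exp (θ * (r - a)) * θ * (p x + (r - a) * q x) + Real.exp (θ * (r - a)) * q x := by
        ring
      rw [e]
      exact this
    have i4 : IntervalIntegrable (fun r => θ * (Real.exp (θ * (r - a)) * (p x + (r - a) * q x))
        + Real.exp (θ * (r - a)) * q x) volume s t := by
      apply Continuous.intervalIntegrable; fun_prop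
    have h2 := intervalIntegral.integral_eq_sub_of_hasDerivAt (fun r _ => hd r) i4
    have i1 : ∀ x, IntervalIntegrable (fun r => u x r - β x r) volume s t := fun x =>
      (hu.interval hs0 hst x).sub ((hβc x).intervalIntegrable s t)
    have i2 := rhs_integrable κ γ hm h01 i1 x
    have i3 := rhs_integrable κ γ hm h01 (fun x => hu.interval hs0 hst x) x
    have h3 : ∫ r in s..t, rhs κ γ ξ (fun x t => u x t - β x t) x r
        ≤ ∫ r in s..t, (rhs κ γ ξ u x r - (θ * (Real.exp (θ * (r - a)) * (p x + (r - a) * q x))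
        + Real.exp (θ * (r - a)) * q x)) := by
      apply intervalIntegral.integral_mono_on hst i2 (i3.sub i4)
      intro r hr
      have := hsub x r ⟨hs.trans hr.1, hr.2.trans htb⟩
      unfold rhs at this ⊢
      simp only [hβ] at this ⊢
      linarith
    rw [intervalIntegral.integral_sub i3 i4, h2, ← h1] at h3
    linarith


/-- the cost of one unit step -/
noncomputable def cst (κ : ℝ) : ℝ := Real.exp (-(2 * κ)) * min κ 1

theorem cst_pos {κ : ℝ} (hκ : 0 < κ) : 0 < cst κ := by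
  unfold cst
  exact mul_pos (Real.exp_pos _) (lt_min hκ one_pos)

theorem cst_le_one {κ : ℝ} (hκ : 0 < κ) : cst κ ≤ 1 := by
  unfold cst
  have h1 : Real.exp (-(2 * κ)) ≤ 1 := by
    rw [Real.exp_le_one_iff]; linarith
  have h2 : min κ 1 ≤ 1 := min_le_right _ _
  have h3 : 0 ≤ min κ 1 := le_min hκ.le zero_le_one
  calc _ ≤ 1 * 1 := mul_le_mul h1 h2 h3 zero_le_one
    _ = 1 := by ring

theorem step {κ γ : ℝ} (hκ : 0 < κ) (hγ : 0 ≤ γ) {ξ : ℤ → ℝ → ℝ}
    (hm : ∀ x, Measurable (ξ x)) (h01 : ∀ x t, 0 ≤ ξ x t ∧ ξ x t ≤ 1) {u : ℤ → ℝ → ℝ}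
    (hu : IsPAM κ γ ξ u) {s h : ℝ} (hs : 0 ≤ s) (hh : 0 ≤ h) (x : ℤ) :
    Real.exp (-(2 * κ) * h) * (u x s + h * (κ * (u (x + 1) s + u (x - 1) s))) ≤ u x (s + h) := by
  have nn : ∀ x, 0 ≤ u x s := fun x => hu.nonneg hκ.le hγ hm h01 x s hs
  obtain ⟨B, hB⟩ := hu.bdd s
  have hB' : ∀ x, u x s ≤ B := fun x => (le_abs_self _).trans (hB x s ⟨hs, le_rfl⟩)
  have := barrier hκ.le hγ hm h01 hu (a := s) (b := s + h) hs (-(2 * κ))
    (fun x => u x s) (fun x => κ * (u (x + 1) s + u (x - 1) s))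
    ⟨B, fun x => hB x s ⟨hs, le_rfl⟩⟩ ⟨κ * (B + B), fun x => ?_⟩ (fun x => le_rfl) ?_
    x (s + h) ⟨by linarith, le_rfl⟩
  · simpa using this
  · rw [abs_of_nonneg (mul_nonneg hκ.le (add_nonneg (nn _) (nn _)))]
    exact mul_le_mul_of_nonneg_left (add_le_add (hB' _) (hB' _)) hκ.le
  · intro x t ht
    unfold rhs
    have ht0 : 0 ≤ t - s := by linarith [ht.1]
    have hE := Real.exp_pos (-(2 * κ) * (t - s))
    set E := Real.exp (-(2 * κ) * (t - s)) with hEd
    have q0 : ∀ x, 0 ≤ (t - s) * (κ * (u (x + 1) s + u (x - 1) s)) := fun x =>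
      mul_nonneg ht0 (mul_nonneg hκ.le (add_nonneg (nn _) (nn _)))
    have g1 : 0 ≤ γ * ξ x t * (E * (u x s + (t - s) * (κ * (u (x + 1) s + u (x - 1) s)))) := by
      have := h01 x t
      exact mul_nonneg (mul_nonneg hγ this.1) (mul_nonneg hE.le (add_nonneg (nn _) (q0 _)))
    have g2 := q0 (x + 1)
    have g3 := q0 (x - 1)
    have g4 : 0 ≤ κ * (E * ((t - s) * (κ * (u (x + 1 + 1) s + u (x + 1 - 1) s)))) :=
      mul_nonneg hκ.le (mul_nonneg hE.le g2)
    have g5 : 0 ≤ κ * (E * ((t - s) * (κ * (u (x - 1 + 1) s + u (x - 1 - 1) s)))) :=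
      mul_nonneg hκ.le (mul_nonneg hE.le g3)
    nlinarith

theorem step_self {κ γ : ℝ} (hκ : 0 < κ) (hγ : 0 ≤ γ) {ξ : ℤ → ℝ → ℝ}
    (hm : ∀ x, Measurable (ξ x)) (h01 : ∀ x t, 0 ≤ ξ x t ∧ ξ x t ≤ 1) {u : ℤ → ℝ → ℝ}
    (hu : IsPAM κ γ ξ u) {s h : ℝ} (hs : 0 ≤ s) (hh : 0 ≤ h) (x : ℤ) :
    Real.exp (-(2 * κ) * h) * u x s ≤ u x (s + h) := by
  refine le_trans ?_ (step hκ hγ hm h01 hu hs hh x)
  apply mul_le_mul_of_nonneg_left _ (Real.exp_pos _).le
  have h1 := hu.nonneg hκ.le hγ hm h01 (x + 1) s hs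
  have h2 := hu.nonneg hκ.le hγ hm h01 (x - 1) s hs
  have : 0 ≤ h * (κ * (u (x + 1) s + u (x - 1) s)) :=
    mul_nonneg hh (mul_nonneg hκ.le (add_nonneg h1 h2))
  linarith

theorem unit_step {κ γ : ℝ} (hκ : 0 < κ) (hγ : 0 ≤ γ) {ξ : ℤ → ℝ → ℝ}
    (hm : ∀ x, Measurable (ξ x)) (h01 : ∀ x t, 0 ≤ ξ x t ∧ ξ x t ≤ 1) {u : ℤ → ℝ → ℝ}
    (hu : IsPAM κ γ ξ u) {s : ℝ} (hs : 0 ≤ s) (x y : ℤ) (hxy : |x - y| ≤ 1) :
    cst κ * u x s ≤ u y (s + 1) := by
  have h := step hκ hγ hm h01 hu hs zero_le_one y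
  rw [mul_one, one_mul] at h
  have h1 := hu.nonneg hκ.le hγ hm h01 (y + 1) s hs
  have h2 := hu.nonneg hκ.le hγ hm h01 (y - 1) s hs
  have h3 := hu.nonneg hκ.le hγ hm h01 y s hs
  have m1 : min κ 1 ≤ κ := min_le_left _ _
  have m2 : min κ 1 ≤ 1 := min_le_right _ _
  have m0 : 0 ≤ min κ 1 := le_min hκ.le zero_le_one
  refine le_trans ?_ h
  unfold cst
  rw [mul_assoc]
  apply mul_le_mul_of_nonneg_left _ (Real.exp_pos _).le
  have hx : x = y ∨ x = y + 1 ∨ x = y - 1 := by
    rw [abs_le] at hxy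
    omega
  rcases hx with rfl | rfl | rfl
  · nlinarith
  · nlinarith
  · nlinarith

theorem chain {κ γ : ℝ} (hκ : 0 < κ) (hγ : 0 ≤ γ) {ξ : ℤ → ℝ → ℝ}
    (hm : ∀ x, Measurable (ξ x)) (h01 : ∀ x t, 0 ≤ ξ x t ∧ ξ x t ≤ 1) {u : ℤ → ℝ → ℝ}
    (hu : IsPAM κ γ ξ u) {s : ℝ} (hs : 0 ≤ s) (x : ℤ) (D : ℕ) :
    ∀ y : ℤ, |x - y| ≤ D → cst κ ^ D * u x s ≤ u y (s + D) := by
  induction D with
  | zero =>
    intro y hy
    have : x = y := by
      have : |x - y| = 0 := le_antisymm (by simpa using hy) (abs_nonneg _)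
      have := abs_eq_zero.mp this
      omega
    subst this
    simp
  | succ D ih =>
    intro y hy
    have hex : ∃ z : ℤ, |x - z| ≤ D ∧ |z - y| ≤ 1 := by
      rcases lt_trichotomy x y with h | h | h
      · refine ⟨y - 1, ?_, ?_⟩
        · rw [abs_le] at hy ⊢; push_cast at hy; constructor <;> omega
        · rw [abs_le]; constructor <;> omega
      · refine ⟨y, ?_, ?_⟩
        · rw [h]; simp
        · simp
      · refine ⟨y + 1, ?_, ?_⟩
        · rw [abs_le] at hy ⊢; push_cast at hy; constructor <;> omega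
        · rw [abs_le]; constructor <;> omega
    obtain ⟨z, hz1, hz2⟩ := hex
    have h1 := ih z hz1
    have h2 := unit_step hκ hγ hm h01 hu (s := s + D) (by positivity) z y hz2
    have h3 := mul_le_mul_of_nonneg_left h1 (cst_pos hκ).le
    have e : s + ((D + 1 : ℕ) : ℝ) = s + D + 1 := by push_cast; ring
    rw [e, pow_succ]
    calc cst κ ^ D * cst κ * u x s = cst κ * (cst κ ^ D * u x s) := by ring
      _ ≤ _ := h3
      _ ≤ _ := h2

/-- the frequency -/
noncomputable def frq (R : ℕ) : ℝ := Real.pi / (2 * R + 2)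

/-- the Dirichlet eigenvalue -/
noncomputable def lam (R : ℕ) : ℝ := 2 - 2 * Real.cos (frq R)

/-- the ground state -/
noncomputable def phi (R : ℕ) (y : ℤ) : ℝ := if |y| ≤ R then Real.cos (frq R * y) else 0

theorem phi_bound (R : ℕ) (y : ℤ) : |phi R y| ≤ 1 := by
  unfold phi
  split_ifs
  · exact Real.abs_cos_le_one _
  · simp

theorem phi_nonneg (R : ℕ) (y : ℤ) : 0 ≤ phi R y := by
  unfold phi
  split_ifs with h
  · apply Real.cos_nonneg_of_mem_Icc
    have hpos : (0 : ℝ) < 2 * R + 2 := by positivity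
    have h' : |(y : ℝ)| ≤ R := by exact_mod_cast h
    have : |frq R * y| ≤ Real.pi / 2 := by
      rw [abs_mul, frq, abs_of_pos (by positivity), div_mul_eq_mul_div, div_le_iff₀ hpos]
      have := mul_le_mul_of_nonneg_left h' Real.pi_pos.le
      have hp := Real.pi_pos
      nlinarith
    exact ⟨(abs_le.mp this).1, (abs_le.mp this).2⟩
  · exact le_rfl

theorem phi_eigen (R : ℕ) (y : ℤ) (hy : |y| ≤ R) :
    phi R (y + 1) + phi R (y - 1) = (2 - lam R) * phi R y := by
  have hy' := abs_le.mp hy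
  have hR : frq R * (R + 1) = Real.pi / 2 := by
    unfold frq
    have : (2 * (R : ℝ) + 2) ≠ 0 := by positivity
    field_simp
  have e1 : phi R (y + 1) = Real.cos (frq R * (y + 1)) := by
    unfold phi
    split_ifs with h
    · push_cast; rfl
    · have : y + 1 = R + 1 := by
        rw [abs_le] at h
        push Not at h
        by_contra hne
        have := h (by omega)
        omega
      have e : (y : ℝ) + 1 = R + 1 := by exact_mod_cast this
      rw [e, hR, Real.cos_pi_div_two]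
  have e2 : phi R (y - 1) = Real.cos (frq R * (y - 1)) := by
    unfold phi
    split_ifs with h
    · push_cast; rfl
    · have : y - 1 = -(R + 1) := by
        rw [abs_le] at h
        push Not at h
        by_contra hne
        have := h (by omega)
        omega
      have e : (y : ℝ) - 1 = -(R + 1) := by exact_mod_cast this
      rw [e, mul_neg, Real.cos_neg, hR, Real.cos_pi_div_two]
  rw [e1, e2]
  unfold phi
  rw [if_pos hy]
  unfold lam
  have a1 : frq R * ((y : ℝ) + 1) = frq R * y + frq R := by ring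
  have a2 : frq R * ((y : ℝ) - 1) = frq R * y - frq R := by ring
  rw [a1, a2, Real.cos_add, Real.cos_sub]
  ring

theorem growth {κ γ : ℝ} (hκ : 0 < κ) (hγ : 0 ≤ γ) {ξ : ℤ → ℝ → ℝ}
    (hm : ∀ x, Measurable (ξ x)) (h01 : ∀ x t, 0 ≤ ξ x t ∧ ξ x t ≤ 1) {u : ℤ → ℝ → ℝ}
    (hu : IsPAM κ γ ξ u) {a t : ℝ} (ha : 0 ≤ a) (hat : a ≤ t) (b : ℤ) (R : ℕ) (c : ℝ) (hc : 0 ≤ c)
    (hin : ∀ y : ℤ, |y| ≤ R → c ≤ u (b + y) a)
    (hξ : ∀ y : ℤ, |y| ≤ R → ∀ r ∈ Icc a t, ξ (b + y) r = 1) :
    c * Real.exp ((γ - κ * lam R) * (t - a)) ≤ u b t := by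
  have := barrier hκ.le hγ hm h01 hu (a := a) (b := t) ha (γ - κ * lam R)
    (fun x => c * phi R (x - b)) (fun _ => 0)
    ⟨c, fun x => ?_⟩ ⟨0, fun x => by simp⟩ (fun x => ?_) ?_ b t ⟨hat, le_rfl⟩
  · have e : phi R 0 = 1 := by unfold phi; simp
    simp only [sub_self, e, mul_one, mul_zero, add_zero] at this
    linarith [mul_comm c (Real.exp ((γ - κ * lam R) * (t - a)))]
  · rw [abs_mul, abs_of_nonneg hc]
    calc c * |phi R (x - b)| ≤ c * 1 := mul_le_mul_of_nonneg_left (phi_bound _ _) hc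
      _ = c := mul_one c
  · by_cases h : |x - b| ≤ R
    · have h1 := hin (x - b) h
      rw [add_sub_cancel] at h1
      have h2 : phi R (x - b) ≤ 1 := (le_abs_self _).trans (phi_bound _ _)
      have := mul_le_mul_of_nonneg_left h2 hc
      linarith
    · have : phi R (x - b) = 0 := by unfold phi; rw [if_neg h]
      simp only [this, mul_zero]
      exact hu.nonneg hκ.le hγ hm h01 x a ha
  · intro x r hr
    unfold rhs
    simp only [mul_zero, add_zero]
    have hE := Real.exp_pos ((γ - κ * lam R) * (r - a))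
    set E := Real.exp ((γ - κ * lam R) * (r - a)) with hEd
    have s1 : x + 1 - b = (x - b) + 1 := by ring
    have s2 : x - 1 - b = (x - b) - 1 := by ring
    rw [s1, s2]
    by_cases h : |x - b| ≤ R
    · have e1 := phi_eigen R (x - b) h
      have e2 := hξ (x - b) h r hr
      rw [add_sub_cancel] at e2
      rw [e2]
      have : κ * (E * (c * phi R (x - b + 1)) + E * (c * phi R (x - b - 1))
          - 2 * (E * (c * phi R (x - b))))
          = κ * E * c * (phi R (x - b + 1) + phi R (x - b - 1) - 2 * phi R (x - b)) := by ring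
      rw [this, e1]
      apply le_of_eq
      ring
    · have e1 : phi R (x - b) = 0 := by unfold phi; rw [if_neg h]
      rw [e1]
      simp only [mul_zero, sub_zero, add_zero]
      have p1 := phi_nonneg R (x - b + 1)
      have p2 := phi_nonneg R (x - b - 1)
      positivity


/-- slab property: near every time there is a large space-time block where the potential is one -/
def Slab (ξ : ℤ → ℝ → ℝ) (n L : ℕ) : Prop :=
  ∀ s : ℝ, 0 ≤ s → ∃ b : ℤ, |b| ≤ L ∧ ∀ y : ℤ, |y| ≤ n →
    ∀ r ∈ Icc s (s + (n + 1) * (2 * L + n + 1)), ξ (b + y) r = 1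

theorem slab_growth {κ γ : ℝ} (hκ : 0 < κ) (hγ : 0 ≤ γ) {ξ : ℤ → ℝ → ℝ}
    (hm : ∀ x, Measurable (ξ x)) (h01 : ∀ x t, 0 ≤ ξ x t ∧ ξ x t ≤ 1) {u : ℤ → ℝ → ℝ}
    (hu : IsPAM κ γ ξ u) {n L : ℕ} (hS : Slab ξ n L) (T : ℝ)
    (hT : T = (n + 1) * (2 * L + n + 1)) (k : ℕ) :
    ∃ b : ℤ, |b| ≤ L ∧ (cst κ ^ (2 * L + n) * Real.exp ((γ - κ * lam n) * (T - (2 * L + n)))) ^ k
      ≤ u b (k * T) := by
  have hT0 : 0 ≤ T := by rw [hT]; positivity
  have hTD : (2 * (L : ℝ) + n) ≤ T := by
    rw [hT]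
    have : (0 : ℝ) ≤ (n : ℝ) * (2 * L + n + 1) := by positivity
    nlinarith
  induction k with
  | zero =>
    refine ⟨0, by simp, ?_⟩
    have := hu.eqn 0 0 le_rfl
    simp only [intervalIntegral.integral_same, add_zero, if_true] at this
    simp [this]
  | succ k ih =>
    obtain ⟨b, hb, hub⟩ := ih
    have hkT : 0 ≤ (k : ℝ) * T := by positivity
    obtain ⟨b', hb', hξ⟩ := hS (k * T) hkT
    refine ⟨b', hb', ?_⟩
    set ρ := cst κ ^ (2 * L + n) * Real.exp ((γ - κ * lam n) * (T - (2 * L + n))) with hρ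
    have hcst := cst_pos hκ
    have hρ0 : 0 ≤ ρ := by rw [hρ]; positivity
    have h1 : ∀ y : ℤ, |y| ≤ n → cst κ ^ (2 * L + n) * ρ ^ k ≤ u (b' + y) (k * T + (2 * L + n)) := by
      intro y hy
      have h2 := chain hκ hγ hm h01 hu hkT b (2 * L + n) (b' + y) (by
        rw [abs_le] at hb hb' hy ⊢
        push_cast
        constructor <;> omega)
      push_cast at h2
      exact le_trans (mul_le_mul_of_nonneg_left hub (by positivity)) h2
    have h3 := growth hκ hγ hm h01 hu (a := k * T + (2 * L + n)) (t := (k + 1 : ℕ) * T)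
      (by positivity) (by push_cast; linarith) b' n (cst κ ^ (2 * L + n) * ρ ^ k) (by positivity)
      h1 (fun y hy r hr => hξ y hy r ⟨?_, ?_⟩)
    · refine le_trans (le_of_eq ?_) h3
      rw [pow_succ]
      conv_lhs => rw [hρ]
      have e : ((k + 1 : ℕ) : ℝ) * T - (k * T + (2 * L + n)) = T - (2 * L + n) := by
        push_cast; ring
      rw [e]
      rw [← hρ]
      ring_nf
      rw [hρ]
      ring_nf
    · have : (0 : ℝ) ≤ 2 * L + n := by positivity
      linarith [hr.1]
    · rw [← hT]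
      have := hr.2
      push_cast at this
      linarith

theorem lam_tendsto : Tendsto (fun n : ℕ => lam n) atTop (𝓝 0) := by
  have h1 : Tendsto (fun n : ℕ => frq n) atTop (𝓝 0) := by
    unfold frq
    apply Tendsto.div_atTop tendsto_const_nhds
    apply tendsto_atTop_add_const_right
    exact tendsto_natCast_atTop_atTop.const_mul_atTop two_pos
  have h2 : Tendsto (fun n : ℕ => Real.cos (frq n)) atTop (𝓝 1) := by
    have := (Real.continuous_cos.tendsto 0).comp h1
    simpa [Function.comp_def] using this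
  have h3 := (h2.const_mul 2).const_sub 2
  unfold lam
  simpa using h3

theorem lower_bound {κ γ : ℝ} (hκ : 0 < κ) (hγ : 0 < γ) {ξ : ℤ → ℝ → ℝ}
    (hm : ∀ x, Measurable (ξ x)) (h01 : ∀ x t, 0 ≤ ξ x t ∧ ξ x t ≤ 1) {u : ℤ → ℝ → ℝ}
    (hu : IsPAM κ γ ξ u) {n L : ℕ} (hS : Slab ξ n L) (e : ℝ)
    (he : e = κ * lam n + (γ - Real.log (cst κ)) / (n + 1)) (hpos : 0 < γ - e) :
    ∃ K : ℝ, ∀ t : ℝ, 0 < t → 0 < u 0 t ∧ (γ - e) * t - K ≤ Real.log (u 0 t) := by
  have hcst := cst_pos hκ
  have hlog : 0 ≤ -Real.log (cst κ) := by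
    have := Real.log_nonpos hcst.le (cst_le_one hκ)
    linarith
  set T : ℝ := (n + 1) * (2 * L + n + 1) with hT
  have hT0 : 0 < T := by rw [hT]; positivity
  have hTD : (n + 1 : ℝ) * (2 * (L : ℝ) + n) ≤ T := by
    rw [hT]
    have : (0 : ℝ) ≤ (n : ℝ) + 1 := by positivity
    nlinarith
  have hTL : (L : ℝ) ≤ T := by
    have : (0 : ℝ) ≤ (n : ℝ) * (2 * L + n) := by positivity
    have : (0 : ℝ) ≤ (L : ℝ) := by positivity
    have : (0 : ℝ) ≤ (n : ℝ) := by positivity
    nlinarith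
  set ρ := cst κ ^ (2 * L + n) * Real.exp ((γ - κ * lam n) * (T - (2 * L + n))) with hρ
  have hρ0 : 0 < ρ := by rw [hρ]; positivity
  -- the key estimate for log ρ
  have hlogρ : T * (γ - e) ≤ Real.log ρ := by
    rw [hρ, Real.log_mul (by positivity) (by positivity), Real.log_pow, Real.log_exp]
    push_cast
    have hlam : 0 ≤ lam n := by
      unfold lam
      have := Real.cos_le_one (frq n)
      linarith
    have h1 : (2 * (L : ℝ) + n) * (γ - Real.log (cst κ))
        ≤ T * ((γ - Real.log (cst κ)) / (n + 1)) := by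
      rw [mul_div_assoc', le_div_iff₀ (by positivity)]
      have h2 : 0 ≤ γ - Real.log (cst κ) := by linarith
      have := mul_le_mul_of_nonneg_right hTD h2
      nlinarith
    have h3 : 0 ≤ (2 * (L : ℝ) + n) * (κ * lam n) := by positivity
    rw [he]
    nlinarith
  have hlogρ0 : 0 ≤ Real.log ρ := le_trans (by positivity) hlogρ
  have u00 : u 0 0 = 1 := by
    have := hu.eqn 0 0 le_rfl
    simpa using this
  refine ⟨2 * Real.log ρ + 4 * κ * T - L * Real.log (cst κ), fun t ht => ?_⟩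
  have hupos : 0 < u 0 t := by
    have := step_self hκ hγ.le hm h01 hu (s := 0) (h := t) le_rfl ht.le 0
    rw [u00, zero_add, mul_one] at this
    exact lt_of_lt_of_le (Real.exp_pos _) this
  refine ⟨hupos, ?_⟩
  by_cases htT : t < T
  · -- short times
    have h1 := step_self hκ hγ.le hm h01 hu (s := 0) (h := t) le_rfl ht.le 0
    rw [u00, zero_add, mul_one] at h1
    have h2 : -(2 * κ) * t ≤ Real.log (u 0 t) := by
      rw [← Real.log_exp (-(2 * κ) * t)]
      exact Real.log_le_log (Real.exp_pos _) h1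
    have h3 : (γ - e) * t ≤ Real.log ρ := by
      refine le_trans ?_ hlogρ
      nlinarith
    have h4 : 0 ≤ -((L : ℝ) * Real.log (cst κ)) := by
      have : (0 : ℝ) ≤ (L : ℝ) := by positivity
      nlinarith
    have h5 : 2 * κ * t ≤ 4 * κ * T := by nlinarith
    nlinarith
  · push Not at htT
    set k := ⌊t / T⌋₊ with hk
    have hk1 : (k : ℝ) ≤ t / T := Nat.floor_le (by positivity)
    have hk2 : t / T < k + 1 := Nat.lt_floor_add_one _
    have hkge : 1 ≤ k := by
      rw [hk]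
      apply Nat.le_floor
      rw [Nat.cast_one, le_div_iff₀ hT0]
      linarith
    obtain ⟨j, hj⟩ : ∃ j, k = j + 1 := ⟨k - 1, by omega⟩
    rw [hj] at hk1 hk2
    push_cast at hk1 hk2
    rw [le_div_iff₀ hT0] at hk1
    rw [div_lt_iff₀ hT0] at hk2
    obtain ⟨b, hb, hub⟩ := slab_growth hκ hγ.le hm h01 hu hS T hT j
    rw [← hρ] at hub
    have hjT : 0 ≤ (j : ℝ) * T := by positivity
    have h1 := chain hκ hγ.le hm h01 hu hjT b L 0 (by simpa using hb)
    have h2 := step_self hκ hγ.le hm h01 hu (s := j * T + L) (h := t - (j * T + L))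
      (by positivity) (by linarith) 0
    have e1 : (j : ℝ) * T + L + (t - (j * T + L)) = t := by ring
    rw [e1] at h2
    have hcL : 0 < cst κ ^ L := by positivity
    have h3 : Real.exp (-(4 * κ * T)) * (cst κ ^ L * ρ ^ j) ≤ u 0 t := by
      refine le_trans ?_ h2
      have a1 : Real.exp (-(4 * κ * T)) ≤ Real.exp (-(2 * κ) * (t - (j * T + L))) := by
        apply Real.exp_le_exp.mpr
        have : t - (j * T + L) ≤ 2 * T := by
          have : (0 : ℝ) ≤ (L : ℝ) := by positivity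
          linarith
        nlinarith
      have a2 : cst κ ^ L * ρ ^ j ≤ u 0 (j * T + L) :=
        le_trans (mul_le_mul_of_nonneg_left hub hcL.le) h1
      exact mul_le_mul a1 a2 (by positivity) (Real.exp_pos _).le
    have h4 := Real.log_le_log (by positivity) h3
    rw [Real.log_mul (by positivity) (by positivity), Real.log_exp,
      Real.log_mul (by positivity) (by positivity), Real.log_pow, Real.log_pow] at h4
    have h5 : (γ - e) * t ≤ (j + 2) * Real.log ρ := by
      have a1 : t ≤ (j + 2) * T := by linarith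
      have a2 : (γ - e) * t ≤ (γ - e) * ((j + 2) * T) := mul_le_mul_of_nonneg_left a1 hpos.le
      have a3 : (j + 2 : ℝ) * (T * (γ - e)) ≤ (j + 2) * Real.log ρ :=
        mul_le_mul_of_nonneg_left hlogρ (by positivity)
      linarith
    linarith

/-- The Lyapunov exponent equals the essential supremum of the reward for every diffusivity. -/
theorem lyapunov {κ γ : ℝ} (hκ : 0 < κ) (hγ : 0 < γ) {ξ : ℤ → ℝ → ℝ}
    (hm : ∀ x, Measurable (ξ x)) (h01 : ∀ x t, 0 ≤ ξ x t ∧ ξ x t ≤ 1) {u : ℤ → ℝ → ℝ}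
    (hu : IsPAM κ γ ξ u) (hS : ∀ n, ∃ L, Slab ξ n L) :
    Tendsto (fun t => Real.log (u 0 t) / t) atTop (𝓝 γ) := by
  have he : Tendsto (fun n : ℕ => κ * lam n + (γ - Real.log (cst κ)) / (n + 1)) atTop (𝓝 0) := by
    have h1 := lam_tendsto.const_mul κ
    have h2 : Tendsto (fun n : ℕ => (γ - Real.log (cst κ)) / ((n : ℝ) + 1)) atTop (𝓝 0) := by
      apply Tendsto.div_atTop tendsto_const_nhds
      exact tendsto_atTop_add_const_right _ _ tendsto_natCast_atTop_atTop
    simpa using h1.add h2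
  rw [Metric.tendsto_atTop]
  intro ε hε
  set ε' := min (ε / 2) (γ / 2) with hε'
  have hε'0 : 0 < ε' := lt_min (by linarith) (by linarith)
  obtain ⟨n, hn⟩ := (he.eventually (gt_mem_nhds hε'0)).exists
  obtain ⟨L, hL⟩ := hS n
  have hpos : 0 < γ - (κ * lam n + (γ - Real.log (cst κ)) / (n + 1)) := by
    have : ε' ≤ γ / 2 := min_le_right _ _
    linarith
  obtain ⟨K, hK⟩ := lower_bound hκ hγ hm h01 hu hL _ rfl hpos
  refine ⟨max 1 (2 * |K| / ε + 1), fun t ht => ?_⟩
  have ht1 : 1 ≤ t := (le_max_left _ _).trans ht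
  have ht2 : 2 * |K| / ε + 1 ≤ t := (le_max_right _ _).trans ht
  have ht0 : 0 < t := by linarith
  obtain ⟨hup, hlow⟩ := hK t ht0
  have hupper : Real.log (u 0 t) ≤ γ * t := by
    rw [← Real.log_exp (γ * t)]
    exact Real.log_le_log hup (hu.upper hκ.le hγ.le hm h01 0 t ht0.le)
  rw [Real.dist_eq, abs_lt]
  constructor
  · rw [lt_sub_iff_add_lt, lt_div_iff₀ ht0]
    have h1 : |K| < (ε / 2) * t := by
      have : 2 * |K| / ε < t := by linarith
      rw [div_lt_iff₀ hε] at this
      linarith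
    have h2 : κ * lam n + (γ - Real.log (cst κ)) / (n + 1) ≤ ε / 2 :=
      hn.le.trans (min_le_left _ _)
    have h3 := le_abs_self K
    nlinarith
  · rw [sub_lt_iff_lt_add, div_lt_iff₀ ht0]
    nlinarith


/-- Picard iterates -/
noncomputable def pic (κ γ : ℝ) (ξ : ℤ → ℝ → ℝ) : ℕ → ℤ → ℝ → ℝ
  | 0 => fun x _ => if x = 0 then 1 else 0
  | k + 1 => fun x t => ∫ s in (0 : ℝ)..t, rhs κ γ ξ (pic κ γ ξ k) x s

theorem pic_cont (κ γ : ℝ) {ξ : ℤ → ℝ → ℝ} (hm : ∀ x, Measurable (ξ x))
    (h01 : ∀ x t, 0 ≤ ξ x t ∧ ξ x t ≤ 1) (k : ℕ) : ∀ x, Continuous (pic κ γ ξ k x) := by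
  induction k with
  | zero => intro x; simp only [pic]; exact continuous_const
  | succ k ih =>
    intro x
    simp only [pic]
    apply intervalIntegral.continuous_primitive
    intro a b
    exact rhs_integrable κ γ hm h01 (fun x => (ih x).intervalIntegrable a b) x

theorem rhs_bound {κ γ : ℝ} (hκ : 0 ≤ κ) (hγ : 0 ≤ γ) {ξ : ℤ → ℝ → ℝ}
    (h01 : ∀ x t, 0 ≤ ξ x t ∧ ξ x t ≤ 1) {z : ℤ → ℝ → ℝ} {s M : ℝ} (h : ∀ x, |z x s| ≤ M) (x : ℤ) :
    |rhs κ γ ξ z x s| ≤ (4 * κ + γ) * M := by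
  unfold rhs
  have a1 := abs_le.mp (h (x + 1))
  have a2 := abs_le.mp (h (x - 1))
  have a3 := abs_le.mp (h x)
  have M0 : 0 ≤ M := (abs_nonneg _).trans (h x)
  have a4 := h01 x s
  have b1 : |κ * (z (x + 1) s + z (x - 1) s - 2 * z x s)| ≤ κ * (4 * M) := by
    rw [abs_mul, abs_of_nonneg hκ]
    apply mul_le_mul_of_nonneg_left _ hκ
    rw [abs_le]; constructor <;> linarith
  have b2 : |γ * ξ x s * z x s| ≤ γ * M := by
    rw [abs_mul, abs_mul, abs_of_nonneg hγ, abs_of_nonneg a4.1, mul_assoc]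
    apply mul_le_mul_of_nonneg_left _ hγ
    calc ξ x s * |z x s| ≤ 1 * M := mul_le_mul a4.2 (h x) (abs_nonneg _) zero_le_one
      _ = M := one_mul M
  calc _ ≤ |κ * (z (x + 1) s + z (x - 1) s - 2 * z x s)| + |γ * ξ x s * z x s| := abs_add_le _ _
    _ ≤ _ := by linarith

theorem pic_bound {κ γ : ℝ} (hκ : 0 ≤ κ) (hγ : 0 ≤ γ) {ξ : ℤ → ℝ → ℝ}
    (hm : ∀ x, Measurable (ξ x)) (h01 : ∀ x t, 0 ≤ ξ x t ∧ ξ x t ≤ 1) (k : ℕ) :
    ∀ x, ∀ t, 0 ≤ t → |pic κ γ ξ k x t| ≤ ((4 * κ + γ) * t) ^ k / (k.factorial : ℝ) := by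
  induction k with
  | zero =>
    intro x t _
    simp only [pic, pow_zero, Nat.factorial_zero, Nat.cast_one, div_one]
    split_ifs <;> simp
  | succ k ih =>
    intro x t ht
    simp only [pic]
    set C := 4 * κ + γ with hC
    have h1 : |∫ s in (0 : ℝ)..t, rhs κ γ ξ (pic κ γ ξ k) x s|
        ≤ ∫ s in (0 : ℝ)..t, C * ((C * s) ^ k / (k.factorial : ℝ)) := by
      have h2 : |∫ s in (0 : ℝ)..t, rhs κ γ ξ (pic κ γ ξ k) x s|
          ≤ ∫ s in (0 : ℝ)..t, |rhs κ γ ξ (pic κ γ ξ k) x s| :=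
        intervalIntegral.abs_integral_le_integral_abs ht
      refine h2.trans ?_
      apply intervalIntegral.integral_mono_on ht
      · exact (rhs_integrable κ γ hm h01
          (fun x => (pic_cont κ γ hm h01 k x).intervalIntegrable 0 t) x).abs
      · apply Continuous.intervalIntegrable; fun_prop
      · intro s hs
        exact rhs_bound hκ hγ h01 (fun x => ih x s hs.1) x
    refine h1.trans (le_of_eq ?_)
    have e1 : ∀ r : ℝ, C * ((C * r) ^ k / (k.factorial : ℝ))
        = (C ^ (k + 1) / (k.factorial : ℝ)) * r ^ k := by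
      intro r; rw [mul_pow]; ring
    simp_rw [e1]
    rw [intervalIntegral.integral_const_mul, integral_pow, Nat.factorial_succ]
    push_cast
    rw [mul_pow]
    have : (k.factorial : ℝ) ≠ 0 := by positivity
    have : ((k : ℝ) + 1) ≠ 0 := by positivity
    field_simp
    simp

theorem exists_pam {κ γ : ℝ} (hκ : 0 ≤ κ) (hγ : 0 ≤ γ) {ξ : ℤ → ℝ → ℝ}
    (hm : ∀ x, Measurable (ξ x)) (h01 : ∀ x t, 0 ≤ ξ x t ∧ ξ x t ≤ 1) :
    ∃ u, IsPAM κ γ ξ u := by
  set C := 4 * κ + γ with hC
  have hC0 : 0 ≤ C := by positivity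
  have hb : ∀ (k : ℕ) (x : ℤ) (T t : ℝ), 0 ≤ t → t ≤ T →
      |pic κ γ ξ k x t| ≤ (C * T) ^ k / (k.factorial : ℝ) := by
    intro k x T t ht htT
    refine (pic_bound hκ hγ hm h01 k x t ht).trans ?_
    gcongr
  have hs : ∀ T : ℝ, Summable (fun k : ℕ => (C * T) ^ k / (k.factorial : ℝ)) := fun T =>
    Real.summable_pow_div_factorial (C * T)
  have hsum : ∀ (x : ℤ) (t : ℝ), 0 ≤ t → Summable (fun k => pic κ γ ξ k x t) := by
    intro x t ht
    exact Summable.of_norm_bounded (hs t) (fun k => by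
      rw [Real.norm_eq_abs]; exact hb k x t t ht le_rfl)
  refine ⟨fun x t => ∑' k, pic κ γ ξ k x t, ?_, ?_, ?_⟩
  · intro x t ht
    have ht0 : 0 ≤ t := ht
    have h1 : ContinuousOn (fun t => ∑' k, pic κ γ ξ k x t) (Icc 0 (t + 1)) := by
      apply continuousOn_tsum (fun k => (pic_cont κ γ hm h01 k x).continuousOn) (hs (t + 1))
      intro k r hr
      rw [Real.norm_eq_abs]
      exact hb k x (t + 1) r hr.1 hr.2
    have h2 := h1 t ⟨ht0, by linarith⟩
    apply h2.mono_of_mem_nhdsWithin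
    have : Icc 0 (t + 1) = Ici 0 ∩ Iic (t + 1) := by rfl
    rw [this]
    exact inter_mem_nhdsWithin _ (Iic_mem_nhds (by linarith))
  · intro T
    refine ⟨∑' k : ℕ, (C * T) ^ k / (k.factorial : ℝ), fun x t ht => ?_⟩
    rw [← Real.norm_eq_abs]
    apply tsum_of_norm_bounded (hs T).hasSum
    intro k
    rw [Real.norm_eq_abs]
    exact hb k x T t ht.1 ht.2
  · intro x t ht
    have h1 : HasSum (fun k => ∫ s in (0 : ℝ)..t, rhs κ γ ξ (pic κ γ ξ k) x s)
        (∫ s in (0 : ℝ)..t, rhs κ γ ξ (fun x t => ∑' k, pic κ γ ξ k x t) x s) := by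
      apply intervalIntegral.hasSum_integral_of_dominated_convergence
        (fun k _ => C * ((C * t) ^ k / (k.factorial : ℝ)))
      · intro k
        have := rhs_integrable κ γ hm h01
          (fun x => (pic_cont κ γ hm h01 k x).intervalIntegrable 0 t) x
        rw [intervalIntegrable_iff] at this
        exact this.aestronglyMeasurable
      · intro k
        apply Filter.Eventually.of_forall
        intro s hsI
        rw [uIoc_of_le ht] at hsI
        rw [Real.norm_eq_abs]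
        exact rhs_bound hκ hγ h01 (fun x => hb k x t s hsI.1.le hsI.2) x
      · apply Filter.Eventually.of_forall
        intro s _
        exact (hs t).mul_left C
      · exact intervalIntegrable_const
      · apply Filter.Eventually.of_forall
        intro s hsI
        rw [uIoc_of_le ht] at hsI
        unfold rhs
        have k1 := (hsum (x + 1) s hsI.1.le).hasSum
        have k2 := (hsum (x - 1) s hsI.1.le).hasSum
        have k3 := (hsum x s hsI.1.le).hasSum
        exact (((k1.add k2).sub (k3.mul_left 2)).mul_left κ).add (k3.mul_left (γ * ξ x s))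
    show ∑' k, pic κ γ ξ k x t = _ + ∫ s in (0 : ℝ)..t, rhs κ γ ξ (fun x t => ∑' k, pic κ γ ξ k x t) x s
    rw [(hsum x t ht).tsum_eq_zero_add, ← h1.tsum_eq]
    rfl


/-! ### numbers -/

theorem search (β : ℝ) (hβ : Irrational β) (w : ℝ) (hw : 0 < w) :
    ∃ L : ℕ, ∀ z : UnitAddCircle, ∃ b : ℤ, |b| ≤ L ∧ ‖z + b • (β : UnitAddCircle)‖ < w := by
  have hd : DenseRange (fun n : ℤ => n • (β : UnitAddCircle)) := by
    have := (AddCircle.denseRange_zsmul_coe_iff (a := β) (p := 1)).mpr (by simpa using hβ)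
    exact this
  have hopen : ∀ b : ℤ, IsOpen {z : UnitAddCircle | ‖z + b • (β : UnitAddCircle)‖ < w} := by
    intro b
    apply isOpen_lt
    · fun_prop
    · exact continuous_const
  have hcov : (univ : Set UnitAddCircle) ⊆ ⋃ b : ℤ, {z | ‖z + b • (β : UnitAddCircle)‖ < w} := by
    intro z _
    obtain ⟨b, hb⟩ := hd.exists_dist_lt (-z) hw
    rw [mem_iUnion]
    refine ⟨b, ?_⟩
    rw [dist_eq_norm] at hb
    simp only [mem_ofPred_eq]
    have e : z + b • (β : UnitAddCircle) = -(-z - b • (β : UnitAddCircle)) := by abel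
    rw [e, norm_neg]
    exact hb
  obtain ⟨t, ht⟩ := isCompact_univ.elim_finite_subcover _ hopen hcov
  refine ⟨t.sup Int.natAbs, fun z => ?_⟩
  have := ht (mem_univ z)
  simp only [mem_iUnion] at this
  obtain ⟨b, hb, hz⟩ := this
  refine ⟨b, ?_, hz⟩
  have := Finset.le_sup (f := Int.natAbs) hb
  rw [Int.abs_eq_natAbs]
  exact_mod_cast this

theorem exists_eta (ε : ℕ → ℕ → ℤ → ℝ) (hε : ∀ n q a, 0 < ε n q a) :
    ∃ η : ℝ, Irrational η ∧ ∀ n : ℕ, ∃ q : ℕ, ∃ a : ℤ, 1 ≤ q ∧ |q * η - a| < ε n q a := by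
  set G : ℕ → Set ℝ := fun n => ⋃ q : ℕ, ⋃ a : ℤ, {η : ℝ | 1 ≤ q ∧ |q * η - a| < ε n q a} with hG
  have hGo : ∀ n, IsOpen (G n) := by
    intro n
    simp only [hG]
    apply isOpen_iUnion; intro q
    apply isOpen_iUnion; intro a
    by_cases hq : 1 ≤ q
    · simp only [hq, true_and]
      apply isOpen_lt
      · fun_prop
      · exact continuous_const
    · simp [hq]
  have hGd : ∀ n, Dense (G n) := by
    intro n
    apply Rat.denseRange_cast.mono
    rintro _ ⟨r, rfl⟩
    simp only [hG, mem_iUnion, mem_ofPred_eq]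
    refine ⟨r.den, r.num, r.den_pos, ?_⟩
    have : (r.den : ℝ) * (r : ℝ) - r.num = 0 := by
      have h2 : (r.den : ℚ) * r = r.num := Rat.den_mul_eq_num r
      have h3 : ((r.den : ℝ)) * (r : ℝ) = (r.num : ℝ) := by exact_mod_cast h2
      linarith
    rw [this, abs_zero]
    exact hε _ _ _
  have h1 : Dense (⋂ n, G n) := dense_iInter_of_isOpen_nat hGo hGd
  have h2 : IsGδ (⋂ n, G n) := IsGδ.iInter_of_isOpen hGo
  have h3 := h1.inter_of_Gδ h2 IsGδ.setOfPred_irrational dense_irrational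
  obtain ⟨η, hη1, hη2⟩ := h3.nonempty
  refine ⟨η, hη2, fun n => ?_⟩
  have := mem_iInter.mp hη1 n
  simp only [hG, mem_iUnion, mem_ofPred_eq] at this
  obtain ⟨q, a, h⟩ := this
  exact ⟨q, a, h.1, h.2⟩

theorem exists_alpha : ∃ a0 a1 : ℝ, ∀ m k l : ℤ, (m ≠ 0 ∨ k ≠ 0) → m * a0 + k * a1 ≠ l := by
  set bad : Set ℝ := ⋃ m : ℤ, ⋃ k : ℤ, ⋃ l : ℤ, {((l : ℝ) - m * √2) / k} with hbad
  have hc : bad.Countable := by
    apply countable_iUnion; intro m
    apply countable_iUnion; intro k
    apply countable_iUnion; intro l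
    exact countable_singleton _
  obtain ⟨a1, ha1⟩ := (hc.dense_compl ℝ).nonempty
  refine ⟨√2, a1, fun m k l hmk heq => ?_⟩
  by_cases hk : k = 0
  · subst hk
    have hm : m ≠ 0 := by simpa using hmk
    simp only [Int.cast_zero, zero_mul, add_zero] at heq
    have := irrational_sqrt_two.intCast_mul hm
    exact this ⟨(l : ℚ), by rw [heq]; simp⟩
  · apply ha1
    simp only [hbad, mem_iUnion, mem_singleton_iff]
    refine ⟨m, k, l, ?_⟩
    have : (k : ℝ) ≠ 0 := by exact_mod_cast hk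
    field_simp
    linarith

theorem beta_irrational {a0 a1 : ℝ} (h : ∀ m k l : ℤ, (m ≠ 0 ∨ k ≠ 0) → m * a0 + k * a1 ≠ l)
    (q : ℕ) (a : ℤ) (hq : 1 ≤ q) : Irrational (q * a0 - a * a1) := by
  rintro ⟨r, hr⟩
  have h1 := h (r.den * q) (-(r.den * a)) r.num (Or.inl (by
    have := r.den_pos
    positivity))
  apply h1
  have h2 : (r.den : ℚ) * r = r.num := Rat.den_mul_eq_num r
  have h3 : ((r.den : ℝ)) * (r : ℝ) = (r.num : ℝ) := by exact_mod_cast h2
  push_cast
  rw [← h3, hr]
  ring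

/-! ### the torus -/

attribute [local instance] instMeasureSpaceUnitAddCircle

local instance circHaar : Measure.IsAddHaarMeasure (volume : Measure UnitAddCircle) :=
  inferInstanceAs (Measure.IsAddHaarMeasure AddCircle.haarAddCircle)

local instance circProb : IsProbabilityMeasure (volume : Measure UnitAddCircle) :=
  inferInstanceAs (IsProbabilityMeasure AddCircle.haarAddCircle)

/-- the two-dimensional torus -/
abbrev Tor := UnitAddTorus (Fin 2)

/-- the point of the torus with given coordinates -/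
noncomputable def pt (x y : ℝ) : Tor := ![(x : UnitAddCircle), (y : UnitAddCircle)]

theorem pt_add (x y x' y' : ℝ) : pt x y + pt x' y' = pt (x + x') (y + y') := by
  ext i
  fin_cases i <;> simp [pt]

theorem pt_zero : pt 0 0 = 0 := by
  ext i
  fin_cases i <;> simp [pt]

/-- the character `q ω₀ - a ω₁` -/
noncomputable def chr (q : ℕ) (a : ℤ) : Tor →+ UnitAddCircle where
  toFun ω := q • ω 0 - a • ω 1
  map_zero' := by simp
  map_add' ω ω' := by
    simp only [Pi.add_apply, smul_add]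
    abel

theorem chr_apply (q : ℕ) (a : ℤ) (ω : Tor) : chr q a ω = q • ω 0 - a • ω 1 := rfl

theorem chr_pt (q : ℕ) (a : ℤ) (x y : ℝ) : chr q a (pt x y) = ((q * x - a * y : ℝ) : UnitAddCircle) := by
  rw [chr_apply]
  simp [pt]

theorem chr_cont (q : ℕ) (a : ℤ) : Continuous (chr q a) := by
  show Continuous (fun ω : Tor => q • ω 0 - a • ω 1)
  fun_prop

theorem chr_surj (q : ℕ) (a : ℤ) (hq : 1 ≤ q) : Function.Surjective (chr q a) := by
  intro z
  obtain ⟨x, rfl⟩ := QuotientAddGroup.mk_surjective z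
  refine ⟨pt (x / q) 0, ?_⟩
  rw [chr_pt]
  congr 1
  have : (q : ℝ) ≠ 0 := by positivity
  field_simp
  simp

theorem chr_mp (q : ℕ) (a : ℤ) (hq : 1 ≤ q) :
    MeasurePreserving (chr q a) (volume : Measure Tor) (volume : Measure UnitAddCircle) := by
  apply AddMonoidHom.measurePreserving (chr_cont q a) (chr_surj q a hq)
  rw [measure_univ, measure_univ]

theorem strip_measure (q : ℕ) (a : ℤ) (hq : 1 ≤ q) (c : UnitAddCircle) (w : ℝ) :
    (volume : Measure Tor) {ω | ‖chr q a ω + c‖ < w} ≤ ENNReal.ofReal (2 * w) := by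
  have hball : {z : UnitAddCircle | ‖z + c‖ < w} ⊆ Metric.closedBall (-c) w := by
    intro z hz
    rw [Metric.mem_closedBall, dist_eq_norm, sub_neg_eq_add]
    exact le_of_lt hz
  have hm : MeasurableSet {z : UnitAddCircle | ‖z + c‖ < w} := by
    apply IsOpen.measurableSet
    apply isOpen_lt
    · fun_prop
    · exact continuous_const
  have h1 := (chr_mp q a hq).measure_preimage hm.nullMeasurableSet
  have h2 : (chr q a) ⁻¹' {z : UnitAddCircle | ‖z + c‖ < w} = {ω | ‖chr q a ω + c‖ < w} := rfl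
  rw [h2] at h1
  rw [h1]
  refine (measure_mono hball).trans ?_
  have h3 : (volume : Measure UnitAddCircle) (Metric.closedBall (-c) w)
      = ENNReal.ofReal (min 1 (2 * w)) := by
    have h4 := AddCircle.volume_closedBall (T := 1) (x := -c) w
    rw [AddCircle.volume_eq_smul_haarAddCircle] at h4
    rw [← h4]
    simp
    rfl
  rw [h3]
  exact ENNReal.ofReal_le_ofReal (min_le_right _ _)

/-! ### ergodicity -/

theorem mFourier_add_apply (n : Fin 2 → ℤ) (x y : Tor) :
    UnitAddTorus.mFourier n (x + y) = UnitAddTorus.mFourier n x * UnitAddTorus.mFourier n y := by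
  simp only [UnitAddTorus.mFourier, ContinuousMap.coe_mk, Pi.add_apply, fourier_apply, smul_add,
    AddCircle.toCircle_add, Circle.coe_mul, Finset.prod_mul_distrib]

theorem mFourier_pt (n : Fin 2 → ℤ) (x y : ℝ) :
    UnitAddTorus.mFourier n (pt x y) = Complex.exp (2 * Real.pi * Complex.I * (n 0 * x + n 1 * y)) := by
  simp only [UnitAddTorus.mFourier, ContinuousMap.coe_mk, Fin.prod_univ_two, pt]
  simp only [Matrix.cons_val_zero, Matrix.cons_val_one]
  rw [fourier_coe_apply, fourier_coe_apply, ← Complex.exp_add]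
  congr 1
  push_cast
  ring

theorem coeff_zero {A : Set Tor} (c : Tor)
    (hinv : (fun ω => ω + c) ⁻¹' A = A) (n : Fin 2 → ℤ)
    (hne : UnitAddTorus.mFourier (-n) c ≠ 1) :
    UnitAddTorus.mFourierCoeff (A.indicator (fun _ => (1 : ℂ))) n = 0 := by
  have h1 : UnitAddTorus.mFourierCoeff (A.indicator (fun _ => (1 : ℂ))) n
      = UnitAddTorus.mFourier (-n) c * UnitAddTorus.mFourierCoeff (A.indicator (fun _ => (1 : ℂ))) n := by
    unfold UnitAddTorus.mFourierCoeff
    rw [← integral_const_mul]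
    rw [← integral_add_right_eq_self (fun t : Tor =>
      UnitAddTorus.mFourier (-n) t • A.indicator (fun _ => (1 : ℂ)) t) c]
    congr 1
    funext t
    have h2 : A.indicator (fun _ => (1 : ℂ)) (t + c) = A.indicator (fun _ => (1 : ℂ)) t := by
      have : t + c ∈ A ↔ t ∈ A := by
        have h3 : t ∈ (fun ω => ω + c) ⁻¹' A ↔ t ∈ A := by rw [hinv]
        exact h3
      by_cases ht : t ∈ A
      · rw [indicator_of_mem ht, indicator_of_mem (this.mpr ht)]
      · rw [indicator_of_notMem ht, indicator_of_notMem (fun h => ht (this.mp h))]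
    rw [h2, mFourier_add_apply, smul_eq_mul, smul_eq_mul]
    ring
  have h2 : (1 - UnitAddTorus.mFourier (-n) c) *
      UnitAddTorus.mFourierCoeff (A.indicator (fun _ => (1 : ℂ))) n = 0 := by
    rw [sub_mul, one_mul, ← h1, sub_self]
  rcases mul_eq_zero.mp h2 with h | h
  · exact absurd (sub_eq_zero.mp h).symm hne
  · exact h

theorem zero_one {A : Set Tor} (hA : MeasurableSet A)
    (h : ∀ n : Fin 2 → ℤ, n ≠ 0 →
      UnitAddTorus.mFourierCoeff (A.indicator (fun _ => (1 : ℂ))) n = 0) :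
    (volume : Measure Tor) A = 0 ∨ (volume : Measure Tor) A = 1 := by
  set f : Lp ℂ 2 (volume : Measure Tor) := indicatorConstLp 2 hA (measure_ne_top _ _) (1 : ℂ) with hf
  have hfc : (f : Tor → ℂ) =ᵐ[volume] A.indicator (fun _ => (1 : ℂ)) := indicatorConstLp_coeFn
  have hco : ∀ n, UnitAddTorus.mFourierCoeff (f : Tor → ℂ) n
      = UnitAddTorus.mFourierCoeff (A.indicator (fun _ => (1 : ℂ))) n := by
    intro n
    unfold UnitAddTorus.mFourierCoeff
    apply integral_congr_ae
    filter_upwards [hfc] with t ht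
    rw [ht]
  have hsum := UnitAddTorus.hasSum_sq_mFourierCoeff f
  have h0 : UnitAddTorus.mFourierCoeff (A.indicator (fun _ => (1 : ℂ))) 0
      = ((volume : Measure Tor).real A : ℂ) := by
    unfold UnitAddTorus.mFourierCoeff
    have : ∀ t : Tor, UnitAddTorus.mFourier (-(0 : Fin 2 → ℤ)) t • A.indicator (fun _ => (1 : ℂ)) t
        = A.indicator (fun _ => (1 : ℂ)) t := by
      intro t
      rw [neg_zero, UnitAddTorus.mFourier_zero]
      simp
    simp_rw [this]
    rw [integral_indicator_const _ hA]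
    simp
  have h1 : ∫ t, ‖f t‖ ^ 2 = (volume : Measure Tor).real A := by
    have : ∀ᵐ t : Tor, ‖f t‖ ^ 2 = A.indicator (fun _ => (1 : ℝ)) t := by
      filter_upwards [hfc] with t ht
      rw [ht]
      by_cases hA' : t ∈ A
      · simp [hA']
      · simp [hA']
    rw [integral_congr_ae this, integral_indicator_const _ hA]
    simp
  have h2 : HasSum (fun i : Fin 2 → ℤ => ‖UnitAddTorus.mFourierCoeff (f : Tor → ℂ) i‖ ^ 2)
      (‖UnitAddTorus.mFourierCoeff (f : Tor → ℂ) 0‖ ^ 2) := by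
    apply hasSum_single
    intro n hn
    rw [hco, h n hn]
    simp
  have h3 := hsum.unique h2
  rw [h1, hco, h0] at h3
  set v := (volume : Measure Tor).real A with hv
  have h4 : v = v ^ 2 := by
    have h6 := h3
    rw [Complex.norm_real, Real.norm_eq_abs, sq_abs] at h6
    exact h6
  have h5 : v = 0 ∨ v = 1 := by
    have : v * (v - 1) = 0 := by nlinarith
    rcases mul_eq_zero.mp this with h | h
    · exact Or.inl h
    · exact Or.inr (by linarith)
  rcases h5 with h | h
  · left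
    rw [hv, measureReal_def, ENNReal.toReal_eq_zero_iff] at h
    rcases h with h | h
    · exact h
    · exact absurd h (measure_ne_top _ _)
  · right
    rw [hv, measureReal_def] at h
    rw [← ENNReal.ofReal_toReal (measure_ne_top (volume : Measure Tor) A), h, ENNReal.ofReal_one]

theorem space_ergodic {a0 a1 : ℝ} (h : ∀ m k l : ℤ, (m ≠ 0 ∨ k ≠ 0) → m * a0 + k * a1 ≠ l)
    {A : Set Tor} (hA : MeasurableSet A) (hinv : (fun ω => ω + pt a0 a1) ⁻¹' A = A) :
    (volume : Measure Tor) A = 0 ∨ (volume : Measure Tor) A = 1 := by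
  apply zero_one hA
  intro n hn
  apply coeff_zero (pt a0 a1) hinv
  rw [mFourier_pt]
  intro hexp
  rw [Complex.exp_eq_one_iff] at hexp
  obtain ⟨l, hl⟩ := hexp
  have h2pi : (2 * Real.pi * Complex.I : ℂ) ≠ 0 := Complex.two_pi_I_ne_zero
  rw [mul_comm (l : ℂ)] at hl
  have h3 := mul_left_cancel₀ h2pi hl
  have h4 : ((-n) 0 : ℝ) * a0 + ((-n) 1 : ℝ) * a1 = l := by exact_mod_cast h3
  apply h ((-n) 0) ((-n) 1) l _ h4
  by_contra hcon
  push Not at hcon
  apply hn
  ext i
  have h0 := hcon.1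
  have h1 := hcon.2
  simp only [Pi.neg_apply, neg_eq_zero] at h0 h1
  fin_cases i
  · simpa using h0
  · simpa using h1

theorem time_ergodic {η : ℝ} (h : Irrational η)
    {A : Set Tor} (hA : MeasurableSet A)
    (hinv : ∀ t : ℝ, (fun ω => ω + pt (t * η) t) ⁻¹' A = A) :
    (volume : Measure Tor) A = 0 ∨ (volume : Measure Tor) A = 1 := by
  apply zero_one hA
  intro n hn
  have hne : ((-n) 0 : ℝ) * η + ((-n) 1 : ℝ) ≠ 0 := by
    intro h0
    by_cases hz : (-n) 0 = 0
    · rw [hz] at h0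
      simp only [Int.cast_zero, zero_mul, zero_add, Int.cast_eq_zero] at h0
      apply hn
      ext i
      simp only [Pi.neg_apply, neg_eq_zero] at hz h0
      fin_cases i
      · simpa using hz
      · simpa using h0
    · have h1 := h.intCast_mul hz
      apply h1
      refine ⟨-(((-n) 1 : ℤ) : ℚ), ?_⟩
      push_cast
      linarith
  set v := ((-n) 0 : ℝ) * η + ((-n) 1 : ℝ) with hv
  apply coeff_zero (pt (1 / (2 * v) * η) (1 / (2 * v))) (hinv _)
  rw [mFourier_pt]
  have e : (2 * Real.pi * Complex.I * (((-n) 0 : ℤ) * ((1 / (2 * v) * η : ℝ) : ℂ)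
      + ((-n) 1 : ℤ) * ((1 / (2 * v) : ℝ) : ℂ))) = Real.pi * Complex.I := by
    have h1 : (((-n) 0 : ℤ) * ((1 / (2 * v) * η : ℝ) : ℂ)
      + ((-n) 1 : ℤ) * ((1 / (2 * v) : ℝ) : ℂ)) = ((1 / 2 : ℝ) : ℂ) := by
      have h2 : ((-n) 0 : ℝ) * (1 / (2 * v) * η) + ((-n) 1 : ℝ) * (1 / (2 * v)) = 1 / 2 := by
        have : ((-n) 0 : ℝ) * (1 / (2 * v) * η) + ((-n) 1 : ℝ) * (1 / (2 * v)) = v * (1 / (2 * v)) := by
          rw [hv]; ring
        rw [this]
        field_simp
      exact_mod_cast h2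
    rw [h1]
    push_cast
    ring
  rw [e, Complex.exp_pi_mul_I]
  norm_num


theorem IsPAM.unique {κ γ : ℝ} (hκ : 0 ≤ κ) (hγ : 0 ≤ γ) {ξ : ℤ → ℝ → ℝ}
    (hm : ∀ x, Measurable (ξ x)) (h01 : ∀ x t, 0 ≤ ξ x t ∧ ξ x t ≤ 1) {u v : ℤ → ℝ → ℝ}
    (hu : IsPAM κ γ ξ u) (hv : IsPAM κ γ ξ v) (x : ℤ) (t : ℝ) (ht : 0 ≤ t) : u x t ≤ v x t := by
  have main := comparison hκ hγ hm h01 (z := fun x t => v x t - u x t)
    (a := 0) (b := t) (fun x => ((hv.cont x).mono (fun r hr => hr.1)).sub
      ((hu.cont x).mono (fun r hr => hr.1))) ?_ ?_ ?_ x t ⟨ht, le_rfl⟩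
  · have main' : 0 ≤ v x t - u x t := main
    linarith
  · obtain ⟨C, hC⟩ := hu.bdd t
    obtain ⟨C', hC'⟩ := hv.bdd t
    refine ⟨C' + C, fun x r hr => ?_⟩
    exact (abs_sub _ _).trans (add_le_add (hC' x r hr) (hC x r hr))
  · intro x
    have e1 := hu.eqn x 0 le_rfl
    have e2 := hv.eqn x 0 le_rfl
    rw [intervalIntegral.integral_same, add_zero] at e1 e2
    show 0 ≤ v x 0 - u x 0
    rw [e1, e2, sub_self]
  · intro x s t hs hst _
    have h1 := hu.incr hm h01 hs hst x
    have h2 := hv.incr hm h01 hs hst x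
    have i1 := rhs_integrable κ γ hm h01 (fun x => hu.interval hs hst x) x
    have i2 := rhs_integrable κ γ hm h01 (fun x => hv.interval hs hst x) x
    have e : ∀ r, rhs κ γ ξ (fun x t => v x t - u x t) x r = rhs κ γ ξ v x r - rhs κ γ ξ u x r := by
      intro r; unfold rhs; ring
    simp_rw [e]
    rw [intervalIntegral.integral_sub i2 i1, ← h1, ← h2]
    linarith

/-- widths -/
noncomputable def wid (n : ℕ) : ℝ := 1 / (2 ^ (n + 3) * (2 * n + 1))

theorem wid_pos (n : ℕ) : 0 < wid n := by unfold wid; positivity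

theorem norm_coe_le (x : ℝ) : ‖(x : UnitAddCircle)‖ ≤ |x| := by
  rw [UnitAddCircle.norm_eq]
  have := round_le x 0
  simpa using this

/-- the n-th set -/
def slabSet (q : ℕ) (a : ℤ) (β : ℝ) (n : ℕ) : Set Tor :=
  {ω | ∃ y : ℤ, |y| ≤ n ∧ ‖chr q a ω + y • (β : UnitAddCircle)‖ < wid n}

theorem slabSet_open (q : ℕ) (a : ℤ) (β : ℝ) (n : ℕ) : IsOpen (slabSet q a β n) := by
  have : slabSet q a β n = ⋃ y : ℤ, ⋃ _ : |y| ≤ n,
      {ω | ‖chr q a ω + y • (β : UnitAddCircle)‖ < wid n} := by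
    ext ω; simp [slabSet]
  rw [this]
  apply isOpen_iUnion; intro y
  apply isOpen_iUnion; intro _
  apply isOpen_lt
  · exact ((chr_cont q a).add continuous_const).norm
  · exact continuous_const

theorem slabSet_measure (q : ℕ) (a : ℤ) (hq : 1 ≤ q) (β : ℝ) (n : ℕ) :
    (volume : Measure Tor) (slabSet q a β n) ≤ ENNReal.ofReal (1 / 2 ^ (n + 2)) := by
  have hsub : slabSet q a β n ⊆ ⋃ y ∈ Finset.Icc (-(n : ℤ)) n,
      {ω | ‖chr q a ω + y • (β : UnitAddCircle)‖ < wid n} := by
    rintro ω ⟨y, hy, hω⟩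
    simp only [mem_iUnion]
    exact ⟨y, Finset.mem_Icc.mpr (abs_le.mp hy), hω⟩
  refine (measure_mono hsub).trans ?_
  refine (measure_biUnion_finset_le _ _).trans ?_
  refine (Finset.sum_le_sum (fun y _ => strip_measure q a hq _ _)).trans ?_
  rw [Finset.sum_const, Int.card_Icc]
  have e : ((n : ℤ) + 1 - -(n : ℤ)).toNat = 2 * n + 1 := by omega
  rw [e, nsmul_eq_mul]
  have : ((2 * n + 1 : ℕ) : ENNReal) = ENNReal.ofReal (2 * n + 1) := by
    rw [← ENNReal.ofReal_natCast]
    push_cast; rfl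
  rw [this, ← ENNReal.ofReal_mul (by positivity)]
  apply ENNReal.ofReal_le_ofReal
  unfold wid
  have h1 : (2 * (n : ℝ) + 1) ≠ 0 := by positivity
  have h2 : (2 : ℝ) ^ n ≠ 0 := by positivity
  rw [pow_add, pow_add]
  apply le_of_eq
  field_simp

/-- There is a stationary potential with values in `{0, 1}` and mean at most one half on
`ℤ × ℝ`, ergodic under space translations alone and under time translations alone, for which the
quenched Lyapunov exponent equals `γ` for every positive diffusion constant. -/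
theorem result : ∃ (Ω : Type) (_ : MeasurableSpace Ω) (P : Measure Ω)
    (τ : ℤ → ℝ → Ω → Ω) (ξ : ℤ → ℝ → Ω → ℝ),
    IsProbabilityMeasure P ∧
    (∀ x t, MeasurePreserving (τ x t) P P) ∧
    (∀ ω, τ 0 0 ω = ω) ∧
    (∀ x y s t ω, τ (x + y) (s + t) ω = τ x s (τ y t ω)) ∧
    (∀ x y s t ω, ξ (x + y) (s + t) ω = ξ x s (τ y t ω)) ∧
    (∀ A, MeasurableSet A → τ 1 0 ⁻¹' A = A → P A = 0 ∨ P A = 1) ∧
    (∀ A, MeasurableSet A → (∀ t, τ 0 t ⁻¹' A = A) → P A = 0 ∨ P A = 1) ∧
    (∀ x, Measurable fun p : ℝ × Ω => ξ x p.1 p.2) ∧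
    (∀ x t ω, ξ x t ω = 0 ∨ ξ x t ω = 1) ∧
    (0 < ∫ ω, ξ 0 0 ω ∂P) ∧ (∫ ω, ξ 0 0 ω ∂P ≤ 1 / 2) ∧
    ∀ κ γ : ℝ, 0 ≤ κ → 0 ≤ γ → ∀ ω : Ω,
      ∃ u : ℤ → ℝ → ℝ, IsPAM κ γ (fun x t => ξ x t ω) u ∧
        (∀ v, IsPAM κ γ (fun x t => ξ x t ω) v → ∀ x t, 0 ≤ t → v x t = u x t) ∧
        (∀ x t, 0 ≤ t → 0 ≤ u x t ∧ u x t ≤ Real.exp (γ * t)) ∧
        (0 < κ → 0 < γ → Tendsto (fun t => Real.log (u 0 t) / t) atTop (𝓝 γ)) := by
  classical
  obtain ⟨a0, a1, hα⟩ := exists_alpha
  -- search radii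
  set Lf : ℕ → ℕ → ℤ → ℕ := fun n q a =>
    if hq : 1 ≤ q then
      Classical.choose (search (q * a0 - a * a1) (beta_irrational hα q a hq) (wid n / 2)
        (half_pos (wid_pos n)))
    else 0 with hLf
  set ε : ℕ → ℕ → ℤ → ℝ := fun n q a =>
    wid n / (2 * ((n + 1) * (2 * (Lf n q a : ℝ) + n + 1))) with hε
  have hεpos : ∀ n q a, 0 < ε n q a := by
    intro n q a
    simp only [hε]
    have := wid_pos n
    positivity
  obtain ⟨η, hη, hqa⟩ := exists_eta ε hεpos
  choose q a hq hδ using hqa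
  set β : ℕ → ℝ := fun n => q n * a0 - a n * a1 with hβ
  set L : ℕ → ℕ := fun n => Lf n (q n) (a n) with hL
  have hsearch : ∀ n, ∀ z : UnitAddCircle, ∃ b : ℤ, |b| ≤ L n ∧
      ‖z + b • (β n : UnitAddCircle)‖ < wid n / 2 := by
    intro n
    have h := Classical.choose_spec (search (q n * a0 - a n * a1)
      (beta_irrational hα (q n) (a n) (hq n)) (wid n / 2) (half_pos (wid_pos n)))
    have e : L n = Classical.choose (search (q n * a0 - a n * a1)
      (beta_irrational hα (q n) (a n) (hq n)) (wid n / 2) (half_pos (wid_pos n))) := by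
      simp only [hL, hLf]
      rw [dif_pos (hq n)]
    rw [e]
    exact h
  set S : Set Tor := ⋃ n, slabSet (q n) (a n) (β n) n with hS
  have hSo : IsOpen S := isOpen_iUnion (fun n => slabSet_open _ _ _ _)
  set τ : ℤ → ℝ → Tor → Tor := fun x t ω => ω + pt (x * a0 + t * η) (x * a1 + t) with hτ
  set ξ : ℤ → ℝ → Tor → ℝ := fun x t ω => S.indicator (fun _ => (1 : ℝ)) (τ x t ω) with hξ
  have hτadd : ∀ x y s t ω, τ (x + y) (s + t) ω = τ x s (τ y t ω) := by
    intro x y s t ω
    simp only [hτ]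
    rw [add_assoc ω, pt_add]
    congr 2 <;> push_cast <;> ring
  have hτcont : ∀ x, Continuous (fun p : ℝ × Tor => τ x p.1 p.2) := by
    intro x
    simp only [hτ]
    apply Continuous.add continuous_snd
    have : Continuous (fun r : ℝ => pt (x * a0 + r * η) (x * a1 + r)) := by
      apply continuous_pi
      intro i
      fin_cases i
      · simp only [pt, Fin.zero_eta, Matrix.cons_val_zero]
        exact (AddCircle.continuous_mk' 1).comp (by fun_prop)
      · simp only [pt, Fin.mk_one, Matrix.cons_val_one]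
        exact (AddCircle.continuous_mk' 1).comp (by fun_prop)
    exact this.comp continuous_fst
  have hSm : Measurable (S.indicator (fun _ => (1 : ℝ))) :=
    measurable_const.indicator hSo.measurableSet
  have hξm : ∀ x, Measurable (fun p : ℝ × Tor => ξ x p.1 p.2) := fun x =>
    hSm.comp (hτcont x).measurable
  have hξ01 : ∀ x t ω, ξ x t ω = 0 ∨ ξ x t ω = 1 := by
    intro x t ω
    simp only [hξ]
    by_cases h : τ x t ω ∈ S
    · right; rw [indicator_of_mem h]
    · left; rw [indicator_of_notMem h]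
  have hξ00 : ∫ ω, ξ 0 0 ω = (volume : Measure Tor).real S := by
    have : ∀ ω, ξ 0 0 ω = S.indicator (fun _ => (1 : ℝ)) ω := by
      intro ω
      simp only [hξ, hτ]
      congr 1
      simp only [Int.cast_zero, zero_mul, add_zero, pt_zero]
    simp_rw [this]
    rw [integral_indicator_const _ hSo.measurableSet]
    simp
  have hSle : (volume : Measure Tor) S ≤ ENNReal.ofReal (1 / 2) := by
    refine (measure_iUnion_le _).trans ?_
    refine (ENNReal.tsum_le_tsum (fun n => slabSet_measure (q n) (a n) (hq n) (β n) n)).trans ?_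
    have hsum : HasSum (fun n : ℕ => (1 : ℝ) / 2 ^ (n + 2)) (1 / 2) := by
      have := (hasSum_geometric_two).mul_left (1 / 4)
      have e : (1 / 4 : ℝ) * 2 = 1 / 2 := by norm_num
      rw [e] at this
      refine this.congr_fun ?_
      intro n
      rw [pow_add]
      have h2 : (2 : ℝ) ^ n ≠ 0 := by positivity
      rw [div_pow, one_pow]
      field_simp
      norm_num
    rw [← ENNReal.ofReal_tsum_of_nonneg (fun n => by positivity) hsum.summable, hsum.tsum_eq]
  refine ⟨Tor, inferInstance, volume, τ, ξ, inferInstance, ?_, ?_, hτadd, ?_, ?_, ?_, hξm, hξ01, ?_,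
    ?_, ?_⟩
  · intro x t
    exact measurePreserving_add_right volume _
  · intro ω
    simp only [hτ, Int.cast_zero, zero_mul, add_zero, pt_zero]
  · intro x y s t ω
    simp only [hξ]
    rw [hτadd]
  · intro A hA hinv
    apply space_ergodic hα hA
    have : τ 1 0 = fun ω => ω + pt a0 a1 := by
      funext ω
      simp only [hτ, Int.cast_one, one_mul, zero_mul, add_zero]
    rw [this] at hinv
    exact hinv
  · intro A hA hinv
    apply time_ergodic hη hA
    intro t
    have : τ 0 t = fun ω => ω + pt (t * η) t := by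
      funext ω
      simp only [hτ, Int.cast_zero, zero_mul, zero_add]
    rw [← this]
    exact hinv t
  · rw [hξ00, measureReal_def]
    apply ENNReal.toReal_pos
    · apply (hSo.measure_pos _ _).ne'
      refine ⟨0, mem_iUnion.mpr ⟨0, 0, by simp, ?_⟩⟩
      rw [map_zero, zero_smul, add_zero, norm_zero]
      exact wid_pos 0
    · exact measure_ne_top _ _
  · rw [hξ00, measureReal_def]
    have := ENNReal.toReal_mono ENNReal.ofReal_ne_top hSle
    rwa [ENNReal.toReal_ofReal (by norm_num)] at this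
  · intro κ γ hκ0 hγ0 ω
    have hm : ∀ x, Measurable (fun t => ξ x t ω) := fun x =>
      (hξm x).comp (measurable_id.prodMk measurable_const)
    have h01 : ∀ x t, 0 ≤ ξ x t ω ∧ ξ x t ω ≤ 1 := by
      intro x t
      rcases hξ01 x t ω with h | h <;> rw [h] <;> norm_num
    obtain ⟨u, hu⟩ := exists_pam hκ0 hγ0 hm h01
    refine ⟨u, hu, ?_, ?_, ?_⟩
    · intro v hv x t ht
      exact le_antisymm (hv.unique hκ0 hγ0 hm h01 hu x t ht)
        (hu.unique hκ0 hγ0 hm h01 hv x t ht)
    · intro x t ht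
      exact ⟨hu.nonneg hκ0 hγ0 hm h01 x t ht, hu.upper hκ0 hγ0 hm h01 x t ht⟩
    · intro hκ hγ
      apply lyapunov hκ hγ hm h01 hu
      intro n
      refine ⟨L n, fun s hs => ?_⟩
      set δ : ℝ := q n * η - a n with hδn
      obtain ⟨b, hb, hbn⟩ := hsearch n (chr (q n) (a n) ω + ((s * δ : ℝ) : UnitAddCircle))
      refine ⟨b, hb, fun y hy r hr => ?_⟩
      have hmem : τ (b + y) r ω ∈ S := by
        refine mem_iUnion.mpr ⟨n, -y, by rwa [abs_neg], ?_⟩
        simp only [hτ]
        rw [map_add, chr_pt]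
        have e1 : chr (q n) (a n) ω +
            ((q n * (((b + y : ℤ) : ℝ) * a0 + r * η) - a n * (((b + y : ℤ) : ℝ) * a1 + r) : ℝ) :
              UnitAddCircle) + (-y) • (β n : UnitAddCircle)
            = (chr (q n) (a n) ω + ((s * δ : ℝ) : UnitAddCircle) + b • (β n : UnitAddCircle))
              + (((r - s) * δ : ℝ) : UnitAddCircle) := by
          have e2 : ∀ m : ℤ, m • (β n : UnitAddCircle) = ((m * β n : ℝ) : UnitAddCircle) := by
            intro m
            rw [← AddCircle.coe_zsmul, zsmul_eq_mul]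
          rw [e2, e2]
          rw [add_assoc (chr (q n) (a n) ω), add_assoc (chr (q n) (a n) ω),
            add_assoc (chr (q n) (a n) ω), ← AddCircle.coe_add, ← AddCircle.coe_add,
            ← AddCircle.coe_add]
          congr 2
          simp only [hβ, hδn]
          push_cast
          ring
        rw [e1]
        have hT0 : (0 : ℝ) < (n + 1) * (2 * (L n : ℝ) + n + 1) := by positivity
        have e3 : |(r - s) * δ| ≤ wid n / 2 := by
          have h1 : |δ| < wid n / (2 * ((n + 1) * (2 * (L n : ℝ) + n + 1))) := hδ n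
          rw [lt_div_iff₀ (by positivity)] at h1
          have h2 : 0 ≤ r - s := by linarith [hr.1]
          have h3 : r - s ≤ (n + 1) * (2 * (L n : ℝ) + n + 1) := by linarith [hr.2]
          rw [abs_mul, abs_of_nonneg h2]
          have h4 : (r - s) * |δ| ≤ ((n + 1) * (2 * (L n : ℝ) + n + 1)) * |δ| :=
            mul_le_mul_of_nonneg_right h3 (abs_nonneg _)
          linarith
        calc _ ≤ ‖chr (q n) (a n) ω + ((s * δ : ℝ) : UnitAddCircle) + b • (β n : UnitAddCircle)‖
              + ‖(((r - s) * δ : ℝ) : UnitAddCircle)‖ := norm_add_le _ _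
          _ < wid n / 2 + wid n / 2 := by
            have := (norm_coe_le ((r - s) * δ)).trans e3
            linarith
          _ = wid n := by ring
      simp only [hξ]
      rw [indicator_of_mem hmem]

end Pool.Agent.Results.MP_e6ac48_pr.NoContinuityAtZero
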